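import Pool.Agent.Q23.EG.Stm

/-!
# Project EG: Frobenius and substitution (job A2)
-/

set_option autoImplicit false

namespace Pool.Agent.Q65.EG

open Finset Polynomial Pool.Agent.Q23.EG

/-- Frobenius and substitution -/
theorem frob : S_frob := by
  intro k _ p g Q _ _ _ χ f hpQ hf hsum j
  have hfj : ∀ (j : ℕ) (c : ZMod Q), f c ^ (p ^ g) ^ j = f ((((p ^ g) ^ j : ℕ) : ZMod Q) * c) := by
    intro j
    induction j with
    | zero => intro c; simp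
    | succ j ih =>
      intro c
      rw [pow_succ, pow_mul, ih, hf, ← mul_assoc]
      congr 2
      push_cast
      ring
  have hcop : Nat.Coprime ((p ^ g) ^ j) Q := (Nat.Coprime.pow_left g hpQ).pow_left j
  set u : (ZMod Q)ˣ := ZMod.unitOfCoprime ((p ^ g) ^ j) hcop with hu
  have huc : (u : ZMod Q) = (((p ^ g) ^ j : ℕ) : ZMod Q) := ZMod.coe_unitOfCoprime _ hcop
  have h1 : ∑ c : ZMod Q, (χ⁻¹ c) ^ (p ^ g) ^ j * f ((u : ZMod Q) * c) = 0 := by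
    have h2 : (∑ c : ZMod Q, χ⁻¹ c * f c) ^ p ^ (g * j) = 0 := by
      rw [hsum]
      exact zero_pow (pow_ne_zero _ (Fact.out : p.Prime).ne_zero)
    rw [sum_pow_char_pow] at h2
    rw [← h2]
    refine sum_congr rfl fun c _ => ?_
    rw [mul_pow, huc, ← hfj j c, ← pow_mul]
  have h3 : ∑ c : ZMod Q, (χ⁻¹ ((u⁻¹ : (ZMod Q)ˣ) * c : ZMod Q)) ^ (p ^ g) ^ j * f c = 0 := by
    rw [← h1]
    rw [← Equiv.sum_comp (Units.mulLeft u)
      (fun c : ZMod Q => (χ⁻¹ ((u⁻¹ : (ZMod Q)ˣ) * c : ZMod Q)) ^ (p ^ g) ^ j * f c)]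
    refine sum_congr rfl fun c _ => ?_
    simp only [Units.mulLeft_apply]
    rw [← mul_assoc, Units.inv_mul, one_mul]
  have h4 : (χ⁻¹ ((u⁻¹ : (ZMod Q)ˣ) : ZMod Q)) ^ (p ^ g) ^ j *
      ∑ c : ZMod Q, (χ⁻¹ c) ^ (p ^ g) ^ j * f c = 0 := by
    rw [← h3, mul_sum]
    refine sum_congr rfl fun c _ => ?_
    rw [map_mul, mul_pow, mul_assoc]
  rcases mul_eq_zero.mp h4 with h5 | h5
  · exfalso
    have h6 : χ⁻¹ ((u⁻¹ : (ZMod Q)ˣ) : ZMod Q) = 0 := eq_zero_of_pow_eq_zero h5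
    exact ((u⁻¹).isUnit.map χ⁻¹).ne_zero h6
  · exact h5

end Pool.Agent.Q65.EG
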