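import Pool.Agent.Q23.EG.Stm

/-!
# Project EG: the kernel lemma by lifting the exponent (job D)
-/

set_option autoImplicit false

namespace Pool.Agent.Q65.EG

open Finset Polynomial Pool.Agent.Q23.EG

lemma emult_eq {ℓ n : ℕ} (hℓ : ℓ.Prime) (hn : n ≠ 0) :
    emultiplicity (ℓ : ℤ) (n : ℤ) = (n.factorization ℓ : ℕ∞) := by
  rw [Int.natCast_emultiplicity, emultiplicity_eq_coe]
  exact ⟨Nat.ordProj_dvd n ℓ, Nat.pow_succ_factorization_not_dvd hn hℓ⟩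

/-- a nilpotent of square zero -/
lemma one_add_pow_sq {R : Type*} [CommRing R] {a : R} (ha : a * a = 0) (v : ℕ) :
    (1 + a) ^ v = 1 + v * a := by
  induction v with
  | zero => simp
  | succ v ih =>
    rw [pow_succ, ih]
    push_cast
    have : (1 + (v : R) * a) * (1 + a) = 1 + ((v : R) + 1) * a + v * (a * a) := by ring
    rw [this, ha, mul_zero, add_zero]

lemma ker_nat (k : Type) [Field k] (M E Q q u : ℕ) [NeZero Q] (χ : MulChar (ZMod Q) k)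
    (hq : 1 < q) (hQ : Q = M * E) (hqu : q - 1 = E * u) (huE : u.Coprime E)
    (hℓM : ∀ ℓ : ℕ, ℓ.Prime → ℓ ∣ M → ℓ ∣ E ∧ (ℓ - 1) ∣ q - 1) (hEM : E ∣ M)
    (hχ : ∀ ℓ : ℕ, ℓ.Prime → ℓ ∣ Q → χ ((1 + Q / ℓ : ℕ) : ZMod Q) ≠ 1)
    (y : ℕ) (hy : χ (y : ZMod Q) ^ (q - 1) = 1)
    (h1 : ∀ ℓ : ℕ, ℓ.Prime → ℓ ∣ M → (ℓ : ℤ) ∣ (y : ℤ) - 1 ∧ (ℓ = 2 → (4 : ℤ) ∣ (y : ℤ) - 1)) :
    (M : ℤ) ∣ (y : ℤ) - 1 := by
  have hQ0 : Q ≠ 0 := NeZero.ne Q
  have hM0 : M ≠ 0 := fun h => hQ0 (by rw [hQ, h, zero_mul])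
  have hE0 : E ≠ 0 := fun h => hQ0 (by rw [hQ, h, mul_zero])
  have hq1 : q - 1 ≠ 0 := by omega
  have hu0 : u ≠ 0 := fun h => hq1 (by rw [hqu, h, mul_zero])
  -- `y` is a unit
  have hyu : IsUnit (y : ZMod Q) := by
    by_contra hcon
    rw [χ.map_nonunit hcon, zero_pow hq1] at hy
    exact zero_ne_one hy
  have hyc : y.Coprime Q := (ZMod.isUnit_iff_coprime y Q).mp hyu
  by_contra hcon
  -- a prime power
  obtain ⟨ℓ, hℓ, hℓM', hnd⟩ : ∃ ℓ : ℕ, ℓ.Prime ∧ ℓ ∣ M ∧ ¬ ((ℓ : ℤ) ^ M.factorization ℓ ∣ (y : ℤ) - 1) := by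
    by_contra hno
    push Not at hno
    apply hcon
    rw [Int.natCast_dvd, Nat.dvd_iff_prime_pow_dvd_dvd]
    intro ℓ i hℓ hi
    rcases Nat.eq_zero_or_pos i with h0 | h0
    · subst h0; simp
    · have h2 : ℓ ∣ M := (dvd_pow_self ℓ (by omega)).trans hi
      have h3 : i ≤ M.factorization ℓ := (hℓ.pow_dvd_iff_le_factorization hM0).mp hi
      have h4 := hno ℓ hℓ h2
      have h5 : ((ℓ ^ M.factorization ℓ : ℕ) : ℤ) ∣ (y : ℤ) - 1 := by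
        push_cast
        exact h4
      rw [Int.natCast_dvd] at h5
      exact (pow_dvd_pow ℓ h3).trans h5
  obtain ⟨hℓE, hℓ1⟩ := hℓM ℓ hℓ hℓM'
  obtain ⟨hy1, hy4⟩ := h1 ℓ hℓ hℓM'
  -- `t = v_ℓ(y - 1)`
  have ht := emultiplicity_lt_iff_not_dvd.mpr hnd
  obtain ⟨t, htt⟩ := ENat.ne_top_iff_exists.mp (ne_top_of_lt ht)
  rw [← htt] at ht
  have htm : t < M.factorization ℓ := by exact_mod_cast ht
  have hℓQ : ℓ ∣ Q := hℓM'.trans ⟨E, hQ⟩
  have hsq : ℓ * ℓ ∣ Q := by rw [hQ]; exact Nat.mul_dvd_mul hℓM' hℓE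
  have hfQ : Q.factorization ℓ = M.factorization ℓ + E.factorization ℓ := by
    rw [hQ, Nat.factorization_mul hM0 hE0]; rfl
  set Q' := Q / ℓ ^ Q.factorization ℓ with hQ'
  have hQQ : ℓ ^ Q.factorization ℓ * Q' = Q := Nat.ordProj_mul_ordCompl_eq_self Q ℓ
  have hQ'0 : Q' ≠ 0 := fun h => hQ0 (by rw [← hQQ, h, mul_zero])
  have hQ'ℓ : ¬ ℓ ∣ Q' := Nat.not_dvd_ordCompl hℓ hQ0
  have hfQ' : Q'.factorization ℓ = 0 := Nat.factorization_eq_zero_of_not_dvd hQ'ℓ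
  have hul : ¬ ℓ ∣ u := by
    intro h
    have h2 : ℓ ∣ Nat.gcd u E := Nat.dvd_gcd h hℓE
    rw [huE] at h2
    exact hℓ.one_lt.ne' (Nat.dvd_one.mp h2)
  have hfq : (q - 1).factorization ℓ = E.factorization ℓ := by
    rw [hqu, Nat.factorization_mul hE0 hu0]
    simp [Nat.factorization_eq_zero_of_not_dvd hul]
  set s := M.factorization ℓ - 1 - t with hs
  set n := (q - 1) * Q' * ℓ ^ s with hn
  have hn0 : n ≠ 0 := mul_ne_zero (mul_ne_zero hq1 hQ'0) (pow_ne_zero _ hℓ.ne_zero)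
  have hfn : n.factorization ℓ = E.factorization ℓ + s := by
    rw [hn, Nat.factorization_mul (mul_ne_zero hq1 hQ'0) (pow_ne_zero _ hℓ.ne_zero),
      Nat.factorization_mul hq1 hQ'0, Nat.Prime.factorization_pow hℓ]
    simp [hfq, hfQ']
  have hlte := lte hℓ hy1 hy4 n
  rw [← htt, emult_eq hℓ hn0, hfn] at hlte
  have hK : t + (E.factorization ℓ + s) = Q.factorization ℓ - 1 := by omega
  have hK1 : 1 ≤ Q.factorization ℓ := by omega
  have hlte' : emultiplicity (ℓ : ℤ) ((y : ℤ) ^ n - 1) = ((Q.factorization ℓ - 1 : ℕ) : ℕ∞) := by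
    rw [hlte, ← hK]
    push_cast
    rfl
  rw [emultiplicity_eq_coe] at hlte'
  obtain ⟨hd1, hd2⟩ := hlte'
  have hyn : 1 ≤ y ^ n := by
    have : 0 < y := by
      rcases Nat.eq_zero_or_pos y with h | h
      · exfalso
        rw [h, Nat.coprime_zero_left] at hyc
        rw [hyc] at hℓQ
        exact hℓ.one_lt.ne' (Nat.dvd_one.mp hℓQ)
      · exact h
    exact Nat.one_le_pow _ _ this
  have hcast : ((y ^ n - 1 : ℕ) : ℤ) = (y : ℤ) ^ n - 1 := by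
    rw [Nat.cast_sub hyn]
    push_cast
    ring
  have hd1' : ℓ ^ (Q.factorization ℓ - 1) ∣ y ^ n - 1 := by
    have : ((ℓ ^ (Q.factorization ℓ - 1) : ℕ) : ℤ) ∣ ((y ^ n - 1 : ℕ) : ℤ) := by
      rw [hcast]; push_cast; exact hd1
    exact_mod_cast this
  have hd2' : ¬ ℓ ^ Q.factorization ℓ ∣ y ^ n - 1 := by
    intro h
    apply hd2
    have : ((ℓ ^ Q.factorization ℓ : ℕ) : ℤ) ∣ ((y ^ n - 1 : ℕ) : ℤ) := by exact_mod_cast h
    rw [hcast] at this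
    push_cast at this
    rwa [Nat.sub_add_cancel hK1]
  have hd3 : Q' ∣ y ^ n - 1 := by
    have hQ'Q : Q' ∣ Q := ⟨ℓ ^ Q.factorization ℓ, by rw [mul_comm]; exact hQQ.symm⟩
    have hW : ∀ ℓ, ℓ.Prime → ℓ ∣ Q' → (ℓ - 1) ∣ q - 1 := by
      intro r hr hrQ
      have h2 : r ∣ M * E := by rw [← hQ]; exact hrQ.trans hQ'Q
      have h3 : r ∣ M := by
        rcases hr.dvd_mul.mp h2 with h | h
        · exact h
        · exact h.trans hEM
      exact (hℓM r hr h3).2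
    have h2 := (exp_dvd hW (hyc.coprime_dvd_right hQ'Q)).pow (ℓ ^ s)
    rw [one_pow, ← pow_mul] at h2
    exact (Nat.modEq_iff_dvd' hyn).1 h2.symm
  have hcop : Nat.Coprime (ℓ ^ (Q.factorization ℓ - 1)) Q' :=
    Nat.Coprime.pow_left _ ((Nat.Prime.coprime_iff_not_dvd hℓ).mpr hQ'ℓ)
  obtain ⟨v, hv⟩ := hcop.mul_dvd_of_dvd_of_dvd hd1' hd3
  have hQℓ : Q / ℓ = ℓ ^ (Q.factorization ℓ - 1) * Q' := by
    apply Nat.div_eq_of_eq_mul_right hℓ.pos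
    rw [← mul_assoc, ← pow_succ', Nat.sub_add_cancel hK1, hQQ]
  rw [← hQℓ] at hv
  have hvℓ : ¬ ℓ ∣ v := by
    rintro ⟨v', rfl⟩
    apply hd2'
    rw [hv, hQℓ]
    refine ⟨Q' * v', ?_⟩
    have : ℓ ^ Q.factorization ℓ = ℓ ^ (Q.factorization ℓ - 1) * ℓ := by
      rw [← pow_succ, Nat.sub_add_cancel hK1]
    rw [this]
    ring
  -- the character
  set a : ZMod Q := ((Q / ℓ : ℕ) : ZMod Q) with ha
  have haa : a * a = 0 := by
    obtain ⟨w, hw⟩ := hsq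
    rw [ha, ← Nat.cast_mul, ZMod.natCast_eq_zero_iff]
    have h2 : Q / ℓ = ℓ * w := by
      apply Nat.div_eq_of_eq_mul_right hℓ.pos
      rw [hw, mul_assoc]
    rw [h2]
    refine ⟨w, ?_⟩
    conv_rhs => rw [hw]
    ring
  have hla : (ℓ : ZMod Q) * a = 0 := by
    rw [ha, ← Nat.cast_mul, Nat.mul_div_cancel' hℓQ, ZMod.natCast_self]
  have hpow : ((y : ZMod Q)) ^ n = (1 + a) ^ v := by
    rw [one_add_pow_sq haa]
    have h2 : y ^ n = 1 + v * (Q / ℓ) := by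
      rw [mul_comm, ← hv]
      omega
    have h3 := congrArg (fun z : ℕ => (z : ZMod Q)) h2
    simp only [Nat.cast_pow, Nat.cast_add, Nat.cast_one, Nat.cast_mul] at h3
    exact h3
  have hη1 : χ (1 + a) ≠ 1 := by
    have := hχ ℓ hℓ hℓQ
    rwa [Nat.cast_add, Nat.cast_one] at this
  have hηℓ : χ (1 + a) ^ ℓ = 1 := by
    rw [← map_pow, one_add_pow_sq haa, hla, add_zero, map_one]
  have hηv : χ (1 + a) ^ v = 1 := by
    rw [← map_pow, ← hpow, map_pow, hn, mul_assoc, pow_mul, hy, one_pow]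
  apply hη1
  have h2 := orderOf_dvd_of_pow_eq_one hηℓ
  have h3 := orderOf_dvd_of_pow_eq_one hηv
  have h4 : orderOf (χ (1 + a)) ∣ Nat.gcd ℓ v := Nat.dvd_gcd h2 h3
  rw [(Nat.Prime.coprime_iff_not_dvd hℓ).mpr hvℓ] at h4
  exact orderOf_eq_one_iff.mp (Nat.dvd_one.mp h4)

/-- the kernel lemma -/
theorem ker : S_ker := by
  intro k _ M E Q q u _ χ hq hQ hqu huE hEM hℓM h2M hχ x hx h1
  have hQ0 : Q ≠ 0 := NeZero.ne Q
  set y := ((x : ℤ) : ZMod Q).val with hy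
  have hyx : ((y : ℕ) : ZMod Q) = (x : ZMod Q) := ZMod.natCast_zmod_val _
  have hdiff : (Q : ℤ) ∣ x - (y : ℤ) := by
    have h3 : ((x - (y : ℤ) : ℤ) : ZMod Q) = 0 := by
      push_cast
      rw [hyx, sub_self]
    exact (ZMod.intCast_zmod_eq_zero_iff_dvd _ Q).mp h3
  have hMQ : M ∣ Q := ⟨E, hQ⟩
  have hkey : (M : ℤ) ∣ (y : ℤ) - 1 := by
    refine ker_nat k M E Q q u χ hq hQ hqu huE hℓM hEM hχ y (by rw [hyx]; exact hx) ?_
    intro ℓ hℓ hℓM'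
    obtain ⟨h3, h4⟩ := h1 ℓ hℓ hℓM'
    have e1 : (y : ℤ) - 1 = (x - 1) - (x - y) := by ring
    constructor
    · rw [e1]
      exact dvd_sub h3 ((Int.natCast_dvd_natCast.mpr (hℓM'.trans hMQ)).trans hdiff)
    · intro h5
      rw [e1]
      refine dvd_sub (h4 h5) (dvd_trans ?_ hdiff)
      subst h5
      have h6 : 4 ∣ Q := by
        rw [hQ]
        exact (h2M hℓM').mul_left M
      exact_mod_cast h6
  have e2 : x - 1 = ((y : ℤ) - 1) + (x - y) := by ring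
  rw [e2]
  exact dvd_add hkey ((Int.natCast_dvd_natCast.mpr hMQ).trans hdiff)

end Pool.Agent.Q65.EG
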